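import Pool.Agent.Helper33.Iso.Goals

/-!
# Null homotopic spheroids of the fibre over the far base point

A spheroid of the fibre based at the far point which becomes null homotopic in the configuration
space is null homotopic in the fibre.
-/

set_option autoImplicit false

open Topology unitInterval RealInnerProductSpace
open Pool.Agent.Helper72.Orb Pool.Agent.Helper33.Iso

namespace Pool.Agent.Helper24.Iso

universe u v w

/-- **INJFAR.** -/
theorem gINJFAR (hSURJ : Pool.Agent.Helper33.Iso.SURJ.{u, v, w}) :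
    Pool.Agent.Helper33.Iso.INJFAR.{u, v, w} := by
  intro H _ E _ _ V _ _ _ hE hV n hQ g hg y hsm N hN l hl hnull
  obtain ⟨m, rfl⟩ : ∃ m, N = m + 1 := ⟨N - 1, by omega⟩
  obtain ⟨e0⟩ : Nonempty E := by
    have := hE.contractible
    infer_instance
  set e : Fin n → E := fun _ => e0 with he
  obtain ⟨δ, h1, -, h3, -⟩ := hQ y hsm (far hV hg y) e e0
  have hδ : ∀ b, δ m b = 1 := fun b => (h3 m b).2 (hSURJ H E V hE hV n g hg y e e0 m b)
  set ee : Fin (n + 1) → E := Fin.snoc e e0 with hee
  -- the spheroid in the classifying space of the fibre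
  let Λ : GenLoop (Fin (m + 1)) (ClassFiber H E y)
      (Quotient.mk'' (e0, far hV hg y) : ClassFiber H E y) :=
    ⟨⟨fun x => Quotient.mk'' (e0, l x),
      continuous_quotient_mk'.comp (continuous_const.prodMk l.continuous)⟩, fun x hx => by
        change (Quotient.mk'' (e0, l x) : ClassFiber H E y) = Quotient.mk'' (e0, far hV hg y)
        rw [hl x hx]⟩
  have himg : piMap (m + 1) (classIncl e y)
      (Quotient.mk'' (e0, far hV hg y) : ClassFiber H E y) (ofLoop Λ) = 1 := by
    rw [piMap_ofLoop, one_eq_ofLoop, ofLoop_eq_iff]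
    obtain ⟨K⟩ := hnull
    exact ⟨(K.compContinuousMap (atPoint (X := V) (H := H) ee)).cast rfl rfl⟩
  obtain ⟨b, hb⟩ := (h1 m (ofLoop Λ)).1 himg
  rw [hδ b, one_eq_ofLoop] at hb
  have hdown := ofLoop_eq_iff.1 hb.symm
  have hcov := cover_fiber hE (continuous_act hV) y
  -- upstairs
  let f : C(Fin (m + 1) → I, E × Punctured H y) :=
    ⟨fun x => (e0, l x), continuous_const.prodMk l.continuous⟩
  let f' : C(Fin (m + 1) → I, E × Punctured H y) :=
    ContinuousMap.const _ (e0, far hV hg y)
  have h0 : (0 : Fin (m + 1) → I) ∈ Cube.boundary (Fin (m + 1)) := ⟨⟨0, hN⟩, Or.inl rfl⟩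
  have key : f.HomotopicRel f' (Cube.boundary (Fin (m + 1))) := by
    rw [hcov.homotopicRel_iff_comp ⟨0, h0, ?_⟩]
    · exact hdown
    · change (e0, l 0) = (e0, far hV hg y)
      rw [hl 0 h0]
  obtain ⟨K⟩ := key
  exact ⟨(K.compContinuousMap (⟨Prod.snd, continuous_snd⟩ : C(E × Punctured H y, Punctured H y))).cast
    rfl rfl⟩

end Pool.Agent.Helper24.Iso
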